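import Pool.Agent.N24.RW.Defs

/-! Pronull sets have density zero in boxes. -/

set_option autoImplicit false

namespace Pool.Agent.V5helper45.PV

open Finset Pool.Agent.N24.RW

theorem box_density {ι : Type} [Fintype ι] (B : Set (ι → ℤ)) (hB : ProNull B) (ε : ℝ) (hε : 0 < ε) :
    ∃ X₀ : ℕ, ∀ X : ℕ, X₀ ≤ X →
      (({c : ι → ℤ | (∀ i, |c i| ≤ X) ∧ c ∈ B}.ncard : ℕ) : ℝ) ≤ ε * (2 * (X : ℝ) + 1) ^ Fintype.card ι := by
  classical
  obtain ⟨q, hq, -, hc⟩ := hB 1 one_pos (ε / 2 ^ Fintype.card ι) (by positivity)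
  have : NeZero q := ⟨hq.ne'⟩
  obtain ⟨T, hT⟩ : ∃ T : Set (ι → ZMod q), T = (fun (c : ι → ℤ) (i : ι) => (c i : ZMod q)) '' B := ⟨_, rfl⟩
  rw [← hT] at hc
  have hTf : T.Finite := Set.toFinite T
  refine ⟨q, fun X hX => ?_⟩
  obtain ⟨Y, hY⟩ : ∃ Y : Finset ((ι → ZMod q) × (ι → ℕ)),
      Y = hTf.toFinset ×ˢ (Fintype.piFinset fun _ : ι => range (2 * X / q + 1)) := ⟨_, rfl⟩
  have hYc : Y.card = T.ncard * (2 * X / q + 1) ^ Fintype.card ι := by
    rw [hY, card_product, Fintype.card_piFinset, prod_const, card_univ, card_range, Set.ncard_eq_toFinset_card T hTf]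
  have h1 : {c : ι → ℤ | (∀ i, |c i| ≤ X) ∧ c ∈ B}.ncard ≤ Y.card := by
    rw [← Set.ncard_coe_finset]
    refine Set.ncard_le_ncard_of_injOn (fun c => ((fun i => (c i : ZMod q)), fun i => (c i + X).toNat / q)) ?_ ?_
      (Finset.finite_toSet _)
    · rintro c ⟨h2, h3⟩
      rw [mem_coe, hY, mem_product, Set.Finite.mem_toFinset, Fintype.mem_piFinset]
      refine ⟨?_, fun i => ?_⟩
      · rw [hT]
        exact ⟨c, h3, rfl⟩
      · rw [mem_range]
        have h4 := abs_le.1 (h2 i)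
        have h5 : (c i + X).toNat ≤ 2 * X := by omega
        exact Nat.lt_succ_of_le (Nat.div_le_div_right h5)
    · rintro c ⟨h2, -⟩ c' ⟨h2', -⟩ heq
      simp only [Prod.mk.injEq] at heq
      funext i
      have h3 := congrFun heq.1 i
      have h4 := congrFun heq.2 i
      have h5 := abs_le.1 (h2 i)
      have h6 := abs_le.1 (h2' i)
      obtain ⟨a, ha⟩ : ∃ a : ℕ, c i + X = a := ⟨(c i + X).toNat, by omega⟩
      obtain ⟨a', ha'⟩ : ∃ a : ℕ, c' i + X = a := ⟨(c' i + X).toNat, by omega⟩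
      rw [ha, ha', Int.toNat_natCast, Int.toNat_natCast] at h4
      have h7 : ((a : ℕ) : ZMod q) = ((a' : ℕ) : ZMod q) := by
        have h8 : ((c i + X : ℤ) : ZMod q) = ((c' i + X : ℤ) : ZMod q) := by
          push_cast
          rw [h3]
        rw [ha, ha'] at h8
        exact_mod_cast h8
      rw [ZMod.natCast_eq_natCast_iff, Nat.ModEq] at h7
      have h8 := Nat.div_add_mod a q
      have h9 := Nat.div_add_mod a' q
      rw [h4, h7, h9] at h8
      omega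
  have h2 : (({c : ι → ℤ | (∀ i, |c i| ≤ X) ∧ c ∈ B}.ncard : ℕ) : ℝ) ≤
      (T.ncard : ℝ) * ((2 * X / q : ℕ) + 1 : ℝ) ^ Fintype.card ι := by
    rw [hYc] at h1
    exact_mod_cast h1
  refine h2.trans ?_
  have hq0 : (0 : ℝ) < q := by exact_mod_cast hq
  have h3 : (q : ℝ) * ((2 * X / q : ℕ) + 1 : ℝ) ≤ 2 * (2 * (X : ℝ) + 1) := by
    have h4 : (q : ℝ) * ((2 * X / q : ℕ) : ℝ) ≤ 2 * X := by
      exact_mod_cast Nat.mul_div_le (2 * X) q
    have h5 : (q : ℝ) ≤ X := by exact_mod_cast hX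
    have h6 : (0 : ℝ) ≤ X := Nat.cast_nonneg _
    nlinarith
  calc (T.ncard : ℝ) * ((2 * X / q : ℕ) + 1 : ℝ) ^ Fintype.card ι
      ≤ (ε / 2 ^ Fintype.card ι * (q : ℝ) ^ Fintype.card ι) * ((2 * X / q : ℕ) + 1 : ℝ) ^ Fintype.card ι :=
        mul_le_mul_of_nonneg_right hc (by positivity)
    _ = ε / 2 ^ Fintype.card ι * ((q : ℝ) * ((2 * X / q : ℕ) + 1 : ℝ)) ^ Fintype.card ι := by
        rw [mul_pow]
        ring
    _ ≤ ε / 2 ^ Fintype.card ι * (2 * (2 * (X : ℝ) + 1)) ^ Fintype.card ι :=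
        mul_le_mul_of_nonneg_left (pow_le_pow_left₀ (by positivity) h3 _) (by positivity)
    _ = ε * (2 * (X : ℝ) + 1) ^ Fintype.card ι := by
        rw [mul_pow]
        field_simp

end Pool.Agent.V5helper45.PV
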