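import Pool.Agent.V5helper45.PV.Main
import Pool.Agent.R925.FD.Ex
import Pool.Agent.N24.RW.All

/-! Polynomials in one variable; factors of odd degree. -/

set_option autoImplicit false

namespace Pool.Agent.V5helper45.PV

open Finset Polynomial Pool.Agent.R925.FD Pool.Agent.N24.RW

/-- persistent over the algebraic number `ρ` -/
def PersAt {K : Type} (n : ℕ) (g : K → ℤ[X]) (h : ℤ[X]) (ρ : AlgebraicClosure ℚ) (δ : K → ℚ) : Prop :=
  ∀ σ : AlgebraicClosure ℚ ≃ₐ[ℚ] AlgebraicClosure ℚ, σ ρ = ρ → ∃ β, σ β = β ∧ aeval β h = 0 ∧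
    ∀ k, ∃ y, σ y = y ∧ aeval β (g k) = (δ k : AlgebraicClosure ℚ) * y ^ n

/-- some power of `σ` with exponent a power of two fixes the zeros of `h` -/
def TwoClosed (h : ℤ[X]) : Prop :=
  ∀ σ : AlgebraicClosure ℚ ≃ₐ[ℚ] AlgebraicClosure ℚ, ∃ N : ℕ, ∀ β, aeval β h = 0 → (σ ^ (2 ^ N)) β = β

lemma aeval_comm (g : ℤ[X]) (σ : AlgebraicClosure ℚ ≃ₐ[ℚ] AlgebraicClosure ℚ) (β : AlgebraicClosure ℚ) :
    σ (aeval β g) = aeval (σ β) g := by
  have h1 := Polynomial.hom_eval₂ g (algebraMap ℤ (AlgebraicClosure ℚ)) (σ : AlgebraicClosure ℚ →+* AlgebraicClosure ℚ) β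
  have h2 : (σ : AlgebraicClosure ℚ →+* AlgebraicClosure ℚ).comp (algebraMap ℤ (AlgebraicClosure ℚ)) =
      algebraMap ℤ (AlgebraicClosure ℚ) := RingHom.ext_int _ _
  rw [h2] at h1
  rw [aeval_def, aeval_def]
  exact h1

theorem odd_pers {K : Type} (g : K → ℤ[X]) (h : ℤ[X]) (δ : K → ℚ) (hδ : ∀ k, δ k ≠ 0) (hT : TwoClosed h)
    (S : Finset (AlgebraicClosure ℚ)) (hodd : Odd S.card)
    (hst : ∀ σ : AlgebraicClosure ℚ ≃ₐ[ℚ] AlgebraicClosure ℚ, ∀ ρ ∈ S, σ ρ ∈ S)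
    (hper : ∀ ρ ∈ S, PersAt 2 g h ρ δ) : Persistent 2 g h δ := by
  classical
  intro σ
  obtain ⟨A, hA⟩ := hT σ
  let f : S → S := fun ρ => ⟨σ ρ.1, hst σ ρ.1 ρ.2⟩
  have hf : Function.Bijective f := by
    rw [Fintype.bijective_iff_injective_and_card]
    refine ⟨fun a b hab => ?_, rfl⟩
    apply Subtype.ext
    exact σ.injective (congrArg Subtype.val hab)
  let π : Equiv.Perm S := Equiv.ofBijective f hf
  have hπ : ∀ (n : ℕ) (ρ : S), ((π ^ n) ρ).1 = (σ ^ n) ρ.1 := by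
    intro n
    induction n with
    | zero => intro ρ; rfl
    | succ n ih =>
      intro ρ
      rw [pow_succ, pow_succ, Equiv.Perm.mul_apply, ih]
      rfl
  have hN : 0 < orderOf π := orderOf_pos π
  obtain ⟨B, b, hb, hNb⟩ := Nat.exists_eq_two_pow_mul_odd hN.ne'
  set b' := b ^ (2 ^ (A + 1)) with hb'
  have hbdvd : b ∣ b' := dvd_pow_self b (pow_pos two_pos _).ne'
  have hfix : (π ^ b') ^ (2 ^ B) = 1 := by
    rw [← pow_mul, ← orderOf_dvd_iff_pow_eq_one, hNb, mul_comm b']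
    exact Nat.mul_dvd_mul_left _ hbdvd
  have h2 : ¬ 2 ∣ Fintype.card S := by
    rw [Fintype.card_coe]
    exact fun h => (Nat.not_even_iff_odd.2 hodd) (even_iff_two_dvd.2 h)
  obtain ⟨ρ, hρ⟩ := Equiv.Perm.exists_fixed_point_of_prime h2 hfix
  have hρσ : (σ ^ b') ρ.1 = ρ.1 := by rw [← hπ, hρ]
  -- b' is 1 modulo 2 ^ (A + 1)
  have hmod : b' ≡ 1 [MOD 2 ^ (A + 1)] := by
    have hcop : Nat.Coprime b (2 ^ (A + 1)) := Nat.Coprime.pow_right _ (Nat.coprime_two_right.2 hb)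
    have h3 := Nat.ModEq.pow_totient hcop
    rw [Nat.totient_prime_pow_succ Nat.prime_two] at h3
    have h4 : b' = (b ^ (2 ^ A * (2 - 1))) ^ 2 := by
      rw [hb', ← pow_mul]
      congr 1
      rw [pow_succ]
      norm_num
    rw [h4]
    simpa using h3.pow 2
  have hb1 : 1 ≤ b' := Nat.one_le_pow _ _ hb.pos
  obtain ⟨t, ht⟩ := (Nat.modEq_iff_dvd' hb1).1 hmod.symm
  have hb'' : b' = 2 ^ (A + 1) * t + 1 := by omega
  have hpow : ∀ x : AlgebraicClosure ℚ, (σ ^ (2 ^ (A + 1))) x = x → (σ ^ b') x = σ x := by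
    intro x hx
    have h5 : ∀ t : ℕ, ((σ ^ (2 ^ (A + 1))) ^ t) x = x := by
      intro t
      induction t with
      | zero => rfl
      | succ t ih => rw [pow_succ, AlgEquiv.mul_apply, hx, ih]
    rw [hb'', pow_succ', pow_mul, AlgEquiv.mul_apply, h5]
  have hdouble : ∀ x : AlgebraicClosure ℚ, (σ ^ (2 ^ (A + 1))) x = (σ ^ (2 ^ A)) ((σ ^ (2 ^ A)) x) := by
    intro x
    rw [← AlgEquiv.mul_apply, ← pow_add]
    congr 2
    rw [pow_succ]
    ring
  obtain ⟨β, hβ, hβh, hy⟩ := hper ρ.1 ρ.2 (σ ^ b') hρσ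
  have hβA : (σ ^ (2 ^ A)) β = β := hA β hβh
  refine ⟨β, ?_, hβh, fun k => ?_⟩
  · rw [← hpow β (by rw [hdouble, hβA, hβA])]
    exact hβ
  · obtain ⟨y, hyσ, hyk⟩ := hy k
    refine ⟨y, ?_, hyk⟩
    rw [← hpow y ?_]
    · exact hyσ
    · have hδk : (δ k : AlgebraicClosure ℚ) ≠ 0 := Rat.cast_ne_zero.2 (hδ k)
      have h6 : ((σ ^ (2 ^ A)) y) ^ 2 = y ^ 2 := by
        have h7 : (σ ^ (2 ^ A)) (aeval β (g k)) = (σ ^ (2 ^ A)) ((δ k : AlgebraicClosure ℚ) * y ^ 2) := by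
          rw [hyk]
        rw [aeval_comm (g k) ((σ ^ (2 ^ A) : AlgebraicClosure ℚ ≃ₐ[ℚ] AlgebraicClosure ℚ)) β, hβA, hyk, map_mul,
          map_ratCast, map_pow] at h7
        exact (mul_left_cancel₀ hδk h7).symm
      rw [hdouble]
      rcases sq_eq_sq_iff_eq_or_eq_neg.1 h6 with h8 | h8
      · rw [h8, h8]
      · rw [h8, map_neg, h8, neg_neg]


/-- a set of integers which for every `ε > 0` is contained in at most `ε q` residue classes modulo some `q` -/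
def ThinZ (B : Set ℤ) : Prop :=
  ∀ ε : ℝ, 0 < ε → ∃ q : ℕ, 0 < q ∧ ∃ S : Set (ZMod q), (S.ncard : ℝ) ≤ ε * q ∧ ∀ u ∈ B, ((u : ℤ) : ZMod q) ∈ S

lemma thin_of_proNull (B : Set ℤ) (hB : ProNull {c : Option Empty → ℤ | c none ∈ B}) : ThinZ B := by
  intro ε hε
  obtain ⟨q, hq, -, hc⟩ := hB 1 one_pos ε hε
  have : NeZero q := ⟨hq.ne'⟩
  refine ⟨q, hq, (fun x : Option Empty → ZMod q => x none) ''
    ((fun (c : Option Empty → ℤ) (i : Option Empty) => (c i : ZMod q)) '' {c : Option Empty → ℤ | c none ∈ B}), ?_, ?_⟩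
  · have h1 := Set.ncard_image_le (f := fun x : Option Empty → ZMod q => x none)
      (s := (fun (c : Option Empty → ℤ) (i : Option Empty) => (c i : ZMod q)) '' {c : Option Empty → ℤ | c none ∈ B})
      (Set.toFinite _)
    have h2 : ((((fun x : Option Empty → ZMod q => x none) ''
      ((fun (c : Option Empty → ℤ) (i : Option Empty) => (c i : ZMod q)) ''
        {c : Option Empty → ℤ | c none ∈ B})).ncard : ℕ) : ℝ) ≤
        ((((fun (c : Option Empty → ℤ) (i : Option Empty) => (c i : ZMod q)) ''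
        {c : Option Empty → ℤ | c none ∈ B}).ncard : ℕ) : ℝ) := by exact_mod_cast h1
    refine h2.trans (hc.trans (le_of_eq ?_))
    simp
  · intro u hu
    exact ⟨fun _ => (u : ZMod q), ⟨fun _ => u, hu, rfl⟩, rfl⟩

lemma val_map_C (Φ : ℤ[X]) (v : Empty → ℤ) (u : ℤ) :
    val (Φ.map (MvPolynomial.C : ℤ →+* MvPolynomial Empty ℤ)) v u = Φ.eval u := by
  have h : (MvPolynomial.eval₂Hom (Int.castRingHom ℤ) v).comp MvPolynomial.C = RingHom.id ℤ :=
    RingHom.ext_int _ _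
  unfold val
  rw [eval₂_map, h]
  rfl

lemma rootMult_map (Φ : ℤ[X]) (ρ : AlgebraicClosure ℚ) :
    ((Φ.map (MvPolynomial.C : ℤ →+* MvPolynomial Empty ℤ)).map (toF Empty)).rootMultiplicity
      (algebraMap (MvPolynomial Empty (AlgebraicClosure ℚ)) (FractionRing (MvPolynomial Empty (AlgebraicClosure ℚ)))
        (MvPolynomial.C ρ) /
        algebraMap (MvPolynomial Empty (AlgebraicClosure ℚ)) (FractionRing (MvPolynomial Empty (AlgebraicClosure ℚ)))
          1) = (Φ.map (Int.castRingHom (AlgebraicClosure ℚ))).rootMultiplicity ρ := by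
  set j : AlgebraicClosure ℚ →+* FractionRing (MvPolynomial Empty (AlgebraicClosure ℚ)) :=
    (algebraMap (MvPolynomial Empty (AlgebraicClosure ℚ)) (FractionRing (MvPolynomial Empty (AlgebraicClosure ℚ)))).comp
      MvPolynomial.C with hj
  have h1 : (toF Empty).comp (MvPolynomial.C : ℤ →+* MvPolynomial Empty ℤ) =
      j.comp (Int.castRingHom (AlgebraicClosure ℚ)) := RingHom.ext_int _ _
  rw [eq_rootMultiplicity_map j.injective ρ, map_one, div_one, Polynomial.map_map, Polynomial.map_map, h1]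
  rfl

/-- one variable -/
theorem uni_null {K : Type} [Fintype K] (n : ℕ) (hn : 0 < n) (b : ℤ) (hb : b ≠ 0)
    (g : K → ℤ[X]) (h : ℤ[X]) (hg0 : ∀ k, g k ≠ 0) (hh0 : h ≠ 0) (hdeg : ∀ k, n ∣ (g k).natDegree)
    (hgg : ∀ k l, k ≠ l →
      IsCoprime ((g k).map (Int.castRingHom ℚ)) ((g l).map (Int.castRingHom ℚ)))
    (hgh : ∀ k, IsCoprime (h.map (Int.castRingHom ℚ)) ((g k).map (Int.castRingHom ℚ)))
    (Φ : ℤ[X]) (hΦ : Φ ≠ 0) (S : Finset (AlgebraicClosure ℚ)) (e : ℕ)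
    (hS : ∀ ρ ∈ S, (Φ.map (Int.castRingHom (AlgebraicClosure ℚ))).rootMultiplicity ρ = e) :
    ThinZ {u : ℤ | ¬ ∀ m, ¬ m ∣ e → m ∣ h.natDegree → ∀ δ : K → ℚ, IsClass n b δ →
      (∀ (p : ℕ) [Fact p.Prime], CoveringHasPoint n m (Φ.eval u) g h δ ℚ_[p]) → ∀ ρ ∈ S, PersAt n g h ρ δ} := by
  classical
  apply thin_of_proNull
  refine (clo (Option Empty)).1 _ _ ?_ (Pool.Agent.N97.RO.finite_union clo S (fun ρ => {c : Option Empty → ℤ |
    ¬ ∀ m, ¬ m ∣ e → m ∣ h.natDegree → ∀ δ : K → ℚ, IsClass n b δ →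
      (∀ (p : ℕ) [Fact p.Prime], CoveringHasPoint n m
        (val (Φ.map (MvPolynomial.C : ℤ →+* MvPolynomial Empty ℤ)) (fun i => c (some i)) (c none)) g h δ ℚ_[p]) →
        PersistentOver n g h (1 : MvPolynomial Empty (AlgebraicClosure ℚ)) (MvPolynomial.C ρ) δ}) fun ρ hρ =>
    null_main' crit clo n hn b hb g h hg0 hh0 hdeg hgg hgh (Φ.map (MvPolynomial.C : ℤ →+* MvPolynomial Empty ℤ)) ?_
      1 (MvPolynomial.C ρ) one_ne_zero e (by rw [rootMult_map, hS ρ hρ]))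
  · intro c hc
    rw [Set.mem_ofPred_eq, Set.mem_ofPred_eq] at hc
    push Not at hc
    obtain ⟨m, hm, hmh, δ, hcl, hloc, ρ, hρ, hnp⟩ := hc
    refine Set.mem_iUnion₂.2 ⟨ρ, hρ, ?_⟩
    rw [Set.mem_ofPred_eq]
    intro hcon
    apply hnp
    have h1 := hcon m hm hmh δ hcl (by
      intro p _
      rw [val_map_C]
      exact hloc p)
    intro σ hσ
    refine h1 σ (fun μ => ?_) (fun μ => ?_)
    · rw [MvPolynomial.coeff_one]
      split_ifs
      · exact map_one σ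
      · exact map_zero σ
    · rw [MvPolynomial.coeff_C]
      split_ifs
      · exact hσ
      · exact map_zero σ
  · exact (Polynomial.map_ne_zero_iff (MvPolynomial.C_injective Empty ℤ)).2 hΦ

/-- the roots of an irreducible factor -/
theorem roots_factor (Φ f : ℤ[X]) (hΦ : Φ ≠ 0) (hf : Irreducible (f.map (Int.castRingHom ℚ))) (e : ℕ)
    (h1 : (f.map (Int.castRingHom ℚ)) ^ e ∣ Φ.map (Int.castRingHom ℚ))
    (h2 : ¬ (f.map (Int.castRingHom ℚ)) ^ (e + 1) ∣ Φ.map (Int.castRingHom ℚ)) :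
    ∃ S : Finset (AlgebraicClosure ℚ), S.card = f.natDegree ∧
      (∀ σ : AlgebraicClosure ℚ ≃ₐ[ℚ] AlgebraicClosure ℚ, ∀ ρ ∈ S, σ ρ ∈ S) ∧
      ∀ ρ ∈ S, (Φ.map (Int.castRingHom (AlgebraicClosure ℚ))).rootMultiplicity ρ = e := by
  classical
  set P := f.map (Int.castRingHom ℚ) with hP
  let j : ℚ →+* AlgebraicClosure ℚ := Rat.castHom (AlgebraicClosure ℚ)
  have hmap : ∀ q : ℤ[X], q.map (Int.castRingHom (AlgebraicClosure ℚ)) = (q.map (Int.castRingHom ℚ)).map j := by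
    intro q
    rw [Polynomial.map_map]
    congr 1
  have hsep : P.Separable := hf.separable
  have hf0 : P ≠ 0 := hf.ne_zero
  have hP1 : P.map j ≠ 0 := (Polynomial.map_ne_zero_iff j.injective).2 hf0
  obtain ⟨G, hG⟩ := h1
  have hnd : ¬ P ∣ G := by
    rintro ⟨q, hq⟩
    apply h2
    rw [hG, hq]
    exact ⟨q, by ring⟩
  have hcop : IsCoprime P G := (hf.coprime_iff_not_dvd).2 hnd
  refine ⟨(P.map j).roots.toFinset, ?_, ?_, ?_⟩
  · have h3 : (P.map j).roots.Nodup := nodup_roots hsep.map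
    rw [Multiset.toFinset_card_of_nodup h3]
    have h4 : (P.map j).Splits := IsAlgClosed.splits _
    rw [← h4.natDegree_eq_card_roots, natDegree_map_eq_of_injective j.injective, hP,
      natDegree_map_eq_of_injective (Int.castRingHom ℚ).injective_int]
  · intro σ ρ hρ
    rw [Multiset.mem_toFinset, mem_roots hP1, IsRoot.def, hP, ← hmap, eval_map] at hρ ⊢
    have h5 := aeval_comm f σ ρ
    have hZ : algebraMap ℤ (AlgebraicClosure ℚ) = Int.castRingHom (AlgebraicClosure ℚ) := RingHom.ext_int _ _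
    rw [aeval_def, aeval_def, hZ, hρ, map_zero] at h5
    exact h5.symm
  · intro ρ hρ
    rw [Multiset.mem_toFinset, mem_roots hP1] at hρ
    obtain ⟨P2, hP2⟩ := dvd_iff_isRoot.2 hρ
    have h6 : P2.eval ρ ≠ 0 := by
      intro h7
      obtain ⟨a, c, hac⟩ := hsep
      have h8 := congrArg (fun q => (q.map j).eval ρ) hac
      simp only [Polynomial.map_add, Polynomial.map_mul, eval_add, eval_mul, Polynomial.map_one, eval_one] at h8
      have h9 : ((derivative P).map j).eval ρ = 0 := by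
        rw [← derivative_map, hP2, derivative_mul, eval_add, eval_mul, eval_mul, h7]
        simp
      have h10 : (P.map j).eval ρ = 0 := hρ
      rw [h9, h10, mul_zero, mul_zero, add_zero] at h8
      exact zero_ne_one h8
    have h7 : (G.map j).eval ρ ≠ 0 := by
      intro h7
      obtain ⟨a, c, hac⟩ := hcop
      have h8 := congrArg (fun q => (q.map j).eval ρ) hac
      simp only [Polynomial.map_add, Polynomial.map_mul, eval_add, eval_mul, Polynomial.map_one, eval_one] at h8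
      have h10 : (P.map j).eval ρ = 0 := hρ
      rw [h7, h10, mul_zero, mul_zero, add_zero] at h8
      exact zero_ne_one h8
    have h8 : Φ.map (Int.castRingHom (AlgebraicClosure ℚ)) = (X - C ρ) ^ e * (P2 ^ e * G.map j) := by
      rw [hmap, hG, Polynomial.map_mul, Polynomial.map_pow, hP2, mul_pow, mul_assoc]
    have h9 : ((X - C ρ) ^ e * (P2 ^ e * G.map j) : (AlgebraicClosure ℚ)[X]) ≠ 0 := by
      rw [← h8]
      exact (Polynomial.map_ne_zero_iff (Int.castRingHom (AlgebraicClosure ℚ)).injective_int).2 hΦ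
    rw [h8, rootMultiplicity_mul h9, rootMultiplicity_X_sub_C_pow, rootMultiplicity_eq_zero, add_zero]
    rw [IsRoot.def, eval_mul, eval_pow]
    exact mul_ne_zero (pow_ne_zero _ h6) h7

/-- a factor of odd degree -/
theorem odd_null {K : Type} [Fintype K] (b : ℤ) (hb : b ≠ 0)
    (g : K → ℤ[X]) (h : ℤ[X]) (hg0 : ∀ k, g k ≠ 0) (hh0 : h ≠ 0) (hdeg : ∀ k, 2 ∣ (g k).natDegree)
    (hgg : ∀ k l, k ≠ l →
      IsCoprime ((g k).map (Int.castRingHom ℚ)) ((g l).map (Int.castRingHom ℚ)))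
    (hgh : ∀ k, IsCoprime (h.map (Int.castRingHom ℚ)) ((g k).map (Int.castRingHom ℚ)))
    (hT : TwoClosed h) (Φ f : ℤ[X]) (hΦ : Φ ≠ 0) (hf : Irreducible (f.map (Int.castRingHom ℚ)))
    (hodd : Odd f.natDegree) (e : ℕ)
    (h1 : (f.map (Int.castRingHom ℚ)) ^ e ∣ Φ.map (Int.castRingHom ℚ))
    (h2 : ¬ (f.map (Int.castRingHom ℚ)) ^ (e + 1) ∣ Φ.map (Int.castRingHom ℚ)) :
    ThinZ {u : ℤ | ¬ ∀ m, ¬ m ∣ e → m ∣ h.natDegree → ∀ δ : K → ℚ, IsClass 2 b δ →
      (∀ (p : ℕ) [Fact p.Prime], CoveringHasPoint 2 m (Φ.eval u) g h δ ℚ_[p]) → Persistent 2 g h δ} := by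
  obtain ⟨S, hS1, hS2, hS3⟩ := roots_factor Φ f hΦ hf e h1 h2
  have key := uni_null 2 two_pos b hb g h hg0 hh0 hdeg hgg hgh Φ hΦ S e hS3
  intro ε hε
  obtain ⟨q, hq, T, hT1, hT2⟩ := key ε hε
  refine ⟨q, hq, T, hT1, fun u hu => hT2 u ?_⟩
  rw [Set.mem_ofPred_eq] at hu ⊢
  intro hcon
  apply hu
  intro m hm hmh δ hcl hloc
  exact odd_pers g h δ hcl.1 hT S (by rw [hS1]; exact hodd) hS2 (hcon m hm hmh δ hcl hloc)

end Pool.Agent.V5helper45.PV
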