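import Mathlib

/-! The irreducible factor of a polynomial over a domain which belongs to a root in a field. -/

set_option autoImplicit false

namespace Pool.Agent.V5helper45.PV

open Polynomial

variable {R F : Type} [CommRing R] [IsDomain R] [CharZero R] [Field F]

/-- clearing the denominators -/
theorem clear (P : (FractionRing R)[X]) : ∃ (d : R) (f : R[X]), d ≠ 0 ∧
    f.map (algebraMap R (FractionRing R)) = C (algebraMap R (FractionRing R) d) * P := by
  obtain ⟨d, hdm, hd⟩ := IsLocalization.integerNormalization_spec (nonZeroDivisors R) P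
  refine ⟨d, IsLocalization.integerNormalization (nonZeroDivisors R) P, nonZeroDivisors.ne_zero hdm, ?_⟩
  rw [hd, ← algebraMap_smul (FractionRing R) d P, smul_eq_C_mul]

/-- If `ρ` is a root of `Φ` of multiplicity `e ≥ 1`, then up to a constant `Φ = f ^ e * G` with a simple root
`ρ` of `f` which is not a root of `G`. -/
theorem alg_data (φ : R →+* F) (hφ : Function.Injective φ) (Φ : R[X]) (hΦ : Φ ≠ 0) (ρ : F) (e : ℕ)
    (he1 : 1 ≤ e) (he : (Φ.map φ).rootMultiplicity ρ = e) :
    ∃ (r : R) (f G : R[X]), r ≠ 0 ∧ C r * Φ = f ^ e * G ∧ eval₂ φ ρ f = 0 ∧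
      eval₂ φ ρ (derivative f) ≠ 0 ∧ eval₂ φ ρ G ≠ 0 := by
  classical
  let K := FractionRing R
  let ψ : K →+* F := IsFractionRing.lift hφ
  have hψφ : ψ.comp (algebraMap R K) = φ := RingHom.ext fun x => IsFractionRing.lift_algebraMap hφ x
  let _ : Algebra K F := ψ.toAlgebra
  have hψ : algebraMap K F = ψ := rfl
  have hcz : CharZero K := charZero_of_injective_algebraMap (IsFractionRing.injective R K)
  set Φ0 : K[X] := Φ.map (algebraMap R K) with hΦ0
  have hΦ00 : Φ0 ≠ 0 := (Polynomial.map_ne_zero_iff (IsFractionRing.injective R K)).2 hΦ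
  have hΦ1 : Φ.map φ = Φ0.map ψ := by rw [hΦ0, Polynomial.map_map, hψφ]
  have hΦ1' : Φ.map φ ≠ 0 := (Polynomial.map_ne_zero_iff hφ).2 hΦ
  have hroot : aeval ρ Φ0 = 0 := by
    have h1 : (Φ.map φ).IsRoot ρ := (rootMultiplicity_pos hΦ1').1 (by omega)
    rw [IsRoot.def, hΦ1, eval_map] at h1
    exact h1
  have hint : IsIntegral K ρ := by
    have : IsAlgebraic K ρ := ⟨Φ0, hΦ00, hroot⟩
    exact this.isIntegral
  set P := minpoly K ρ with hP
  have hPirr : Irreducible P := minpoly.irreducible hint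
  have hPm : P.Monic := minpoly.monic hint
  have hPs : P.Separable := hPirr.separable
  have hPρ : aeval ρ P = 0 := minpoly.aeval K ρ
  have hPd : aeval ρ (derivative P) ≠ 0 := hPs.aeval_derivative_ne_zero hPρ
  have hfin : FiniteMultiplicity P Φ0 :=
    finiteMultiplicity_of_degree_pos_of_monic (minpoly.degree_pos hint) hPm hΦ00
  obtain ⟨G0, hG0, hnd⟩ := hfin.exists_eq_pow_mul_and_not_dvd
  set a := multiplicity P Φ0 with ha
  have hG0ρ : aeval ρ G0 ≠ 0 := by
    intro h
    exact hnd (minpoly.dvd K ρ h)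
  -- the multiplicity of the root
  have hae : a = e := by
    have h1 : (P.map ψ).IsRoot ρ := by
      rw [IsRoot.def, eval_map]
      exact hPρ
    obtain ⟨P2, hP2⟩ := dvd_iff_isRoot.2 h1
    have h2 : P2.eval ρ ≠ 0 := by
      intro h3
      apply hPd
      have h4 : (derivative (P.map ψ)).eval ρ = 0 := by
        rw [hP2, derivative_mul, eval_add, eval_mul, eval_mul, h3]
        simp
      rw [derivative_map, eval_map] at h4
      exact h4
    have h3 : (G0.map ψ).eval ρ ≠ 0 := by
      rw [eval_map]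
      exact hG0ρ
    have h5 : Φ.map φ = (X - C ρ) ^ a * (P2 ^ a * G0.map ψ) := by
      rw [hΦ1, hG0, Polynomial.map_mul, Polynomial.map_pow, hP2, mul_pow, mul_assoc]
    have h6 : ((X - C ρ) ^ a * (P2 ^ a * G0.map ψ) : F[X]) ≠ 0 := by rw [← h5]; exact hΦ1'
    rw [h5, rootMultiplicity_mul h6, rootMultiplicity_X_sub_C_pow, rootMultiplicity_eq_zero, add_zero] at he
    · exact he
    · rw [IsRoot.def, eval_mul, eval_pow]
      exact mul_ne_zero (pow_ne_zero _ h2) h3
  rw [hae] at hG0
  obtain ⟨d1, f, hd1, hf⟩ := clear (R := R) P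
  obtain ⟨d2, G, hd2, hG⟩ := clear (R := R) G0
  have hev : ∀ p : R[X], eval₂ φ ρ p = aeval ρ (p.map (algebraMap R K)) := by
    intro p
    rw [aeval_def, hψ, eval₂_map, hψφ]
  have hd1' : ψ (algebraMap R K d1) ≠ 0 := by
    rw [map_ne_zero_iff _ ψ.injective, map_ne_zero_iff _ (IsFractionRing.injective R K)]
    exact hd1
  have hd2' : ψ (algebraMap R K d2) ≠ 0 := by
    rw [map_ne_zero_iff _ ψ.injective, map_ne_zero_iff _ (IsFractionRing.injective R K)]
    exact hd2
  refine ⟨d1 ^ e * d2, f, G, mul_ne_zero (pow_ne_zero _ hd1) hd2, ?_, ?_, ?_, ?_⟩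
  · apply Polynomial.map_injective _ (IsFractionRing.injective R K)
    rw [Polynomial.map_mul, Polynomial.map_mul, Polynomial.map_pow, hf, hG, map_C, ← hΦ0, hG0, map_mul,
      map_pow, C_mul, C_pow, mul_pow]
    ring
  · rw [hev, hf, map_mul, hPρ, mul_zero]
  · rw [hev, ← derivative_map, hf, derivative_C_mul, map_mul, aeval_C, hψ]
    exact mul_ne_zero hd1' hPd
  · rw [hev, hG, map_mul, aeval_C, hψ]
    exact mul_ne_zero hd2' hG0ρ

end Pool.Agent.V5helper45.PV
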