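import Pool.Agent.V5helper45.PV.Red
import Pool.Agent.N24.RW.Clo

/-! The number of residue vectors modulo `p ^ 2` at which a polynomial is divisible by `p` exactly `e` times. -/

set_option autoImplicit false

namespace Pool.Agent.V5helper45.PV

open Finset Polynomial

theorem sz_gen {κ : Type} [Fintype κ] [DecidableEq κ] {p : ℕ} [hp : Fact p.Prime] (N : MvPolynomial κ (ZMod p))
    (hN : N ≠ 0) :
    ((univ : Finset (κ → ZMod p)).filter fun x => MvPolynomial.eval x N = 0).card * p ≤
      N.totalDegree * p ^ Fintype.card κ := by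
  classical
  let e := Fintype.equivFin κ
  have h1 := Pool.Agent.N24.RW.Clo.sz_fin (MvPolynomial.rename e N) (by
    intro h
    exact hN (MvPolynomial.rename_injective e e.injective (by rw [h, map_zero])))
  have h2 : (MvPolynomial.rename e N).totalDegree = N.totalDegree :=
    MvPolynomial.totalDegree_renameEquiv e N
  rw [h2] at h1
  refine le_trans (Nat.mul_le_mul_right p ?_) h1
  refine card_le_card_of_injOn (fun x => fun i => x (e.symm i)) ?_ ?_
  · intro x hx
    rw [mem_coe, mem_filter] at hx ⊢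
    refine ⟨mem_univ _, ?_⟩
    rw [MvPolynomial.eval_rename]
    have : (fun i => x (e.symm i)) ∘ e = x := by
      funext i
      simp
    rw [this]
    exact hx.2
  · intro x _ y _ h
    funext i
    have := congrFun h (e i)
    simpa using this

lemma val_eval {κ : Type} (f : (MvPolynomial κ ℤ)[X]) (v : κ → ℤ) (u : ℤ) :
    val f v u = (f.map (MvPolynomial.eval₂Hom (Int.castRingHom ℤ) v)).eval u := by
  unfold val
  rw [eval_map]

lemma val_C_mul {κ : Type} {R : Type*} [CommRing R] (r : MvPolynomial κ ℤ) (f : (MvPolynomial κ ℤ)[X])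
    (v : κ → R) (u : R) : val (C r * f) v u = MvPolynomial.eval₂Hom (Int.castRingHom R) v r * val f v u := by
  unfold val
  rw [eval₂_mul, eval₂_C]

lemma val_mul {κ : Type} {R : Type*} [CommRing R] (f g : (MvPolynomial κ ℤ)[X])
    (v : κ → R) (u : R) : val (f * g) v u = val f v u * val g v u := by
  unfold val
  rw [eval₂_mul]

lemma val_pow {κ : Type} {R : Type*} [CommRing R] (f : (MvPolynomial κ ℤ)[X]) (e : ℕ)
    (v : κ → R) (u : R) : val (f ^ e) v u = val f v u ^ e := by
  unfold val
  rw [eval₂_pow]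

lemma val_derivative {κ : Type} (f : (MvPolynomial κ ℤ)[X]) (v : κ → ℤ) (u : ℤ) :
    val (derivative f) v u = (derivative (f.map (MvPolynomial.eval₂Hom (Int.castRingHom ℤ) v))).eval u := by
  rw [val_eval, derivative_map]

lemma val_cast {κ : Type} (q : ℕ) (f : (MvPolynomial κ ℤ)[X]) (v : κ → ℤ) (u : ℤ) :
    ((val f v u : ℤ) : ZMod q) = val f (fun i => (v i : ZMod q)) (u : ZMod q) := by
  have := map_val f v u (Int.castRingHom (ZMod q))
  simpa using this

/-- the residue vectors modulo `p ^ 2` at all lifts of which `Φ` is divisible by `p` exactly `e` times -/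
def Om {κ : Type} (Φ : (MvPolynomial κ ℤ)[X]) (e p : ℕ) : Set (Option κ → ZMod (p ^ 2)) :=
  {x | ∀ c : Option κ → ℤ, (∀ i, (c i : ZMod (p ^ 2)) = x i) →
    (p : ℤ) ^ e ∣ val Φ (fun i => c (some i)) (c none) ∧
      ¬ (p : ℤ) ^ (e + 1) ∣ val Φ (fun i => c (some i)) (c none)}

theorem count_om {κ : Type} [Fintype κ] {p : ℕ} [hp : Fact p.Prime] (Φ f G : (MvPolynomial κ ℤ)[X])
    (r : MvPolynomial κ ℤ) (e : ℕ) (hrel : C r * Φ = f ^ e * G) (N : MvPolynomial κ (ZMod p))
    (hN : N ≠ 0) (d : ℕ) (hd : N.totalDegree ≤ d)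
    (h : ∀ x : κ → ZMod p, MvPolynomial.eval x N ≠ 0 → ∃ u : ZMod p, val f x u = 0 ∧
      val (C r * (derivative f * G)) x u ≠ 0) (hpd : 2 * d ≤ p) :
    1 / (4 * (p : ℝ)) * (((p ^ 2 : ℕ) : ℝ)) ^ Fintype.card (Option κ) ≤ ((Om Φ e p).ncard : ℝ) := by
  classical
  have hp0 : 0 < p := hp.out.pos
  have hpne : NeZero p := ⟨hp0.ne'⟩
  have : NeZero (p ^ 2) := ⟨(pow_pos hp0 2).ne'⟩
  set Good : Finset (κ → ZMod p) := univ.filter fun x => MvPolynomial.eval x N ≠ 0 with hGood
  have hcardG : p ^ Fintype.card κ ≤ 2 * Good.card := by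
    have h1 := sz_gen N hN
    have h2 := Finset.card_filter_add_card_filter_not (s := (univ : Finset (κ → ZMod p)))
      (fun x => MvPolynomial.eval x N = 0)
    rw [card_univ, Fintype.card_fun, ZMod.card] at h2
    have h3 : ((univ : Finset (κ → ZMod p)).filter fun x => ¬ MvPolynomial.eval x N = 0) = Good := rfl
    rw [h3] at h2
    have h4 : N.totalDegree * p ^ Fintype.card κ ≤ d * p ^ Fintype.card κ :=
      Nat.mul_le_mul_right _ hd
    have h5 : 2 * (d * p ^ Fintype.card κ) ≤ p * p ^ Fintype.card κ := by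
      rw [← mul_assoc]
      exact Nat.mul_le_mul_right _ hpd
    have h6 : 2 * ((univ : Finset (κ → ZMod p)).filter fun x => MvPolynomial.eval x N = 0).card * p ≤
        p ^ Fintype.card κ * p := by
      calc _ = 2 * (((univ : Finset (κ → ZMod p)).filter fun x => MvPolynomial.eval x N = 0).card * p) := by
            ring
        _ ≤ 2 * (d * p ^ Fintype.card κ) := Nat.mul_le_mul_left 2 (h1.trans h4)
        _ ≤ p * p ^ Fintype.card κ := h5
        _ = _ := mul_comm _ _
    have h7 := Nat.le_of_mul_le_mul_right h6 hp0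
    omega
  choose! u hu0 hu1 using h
  -- the integral points
  set ci : (κ → ZMod p) × (κ → ZMod p) × ZMod p → Option κ → ℤ := fun z i => i.elim
    (((u z.1).val : ℤ) + p * (z.2.2.val : ℤ)) (fun j => ((z.1 j).val : ℤ) + p * ((z.2.1 j).val : ℤ)) with hci
  set vf : (κ → ZMod p) × (κ → ZMod p) × ZMod p → (MvPolynomial κ ℤ)[X] → ℤ := fun z P =>
    val P (fun i => ci z (some i)) (ci z none) with hvf
  have hcast : ∀ z, (∀ i, ((ci z (some i) : ℤ) : ZMod p) = z.1 i) ∧ ((ci z none : ℤ) : ZMod p) = u z.1 := by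
    intro z
    simp only [hci, Option.elim_some, Option.elim_none]
    constructor
    · intro i
      push_cast
      rw [ZMod.natCast_zmod_val, ZMod.natCast_self, zero_mul, add_zero]
    · push_cast
      rw [ZMod.natCast_zmod_val, ZMod.natCast_self, zero_mul, add_zero]
  have hmod : ∀ z P, ((vf z P : ℤ) : ZMod p) = val P z.1 (u z.1) := by
    intro z P
    simp only [hvf]
    rw [val_cast]
    congr 1
    · funext i
      exact (hcast z).1 i
    · exact (hcast z).2
  -- the sets
  set All : Finset ((κ → ZMod p) × (κ → ZMod p) × ZMod p) := Good ×ˢ (univ ×ˢ univ) with hAll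
  set T := All.filter fun z => ¬ (p : ℤ) ^ 2 ∣ vf z f with hT
  set Tc := All.filter fun z => ¬ ¬ (p : ℤ) ^ 2 ∣ vf z f with hTc
  have hsum : T.card + Tc.card = All.card := Finset.card_filter_add_card_filter_not _
  have hAllc : All.card = Good.card * (p ^ Fintype.card κ * p) := by
    rw [hAll, card_product, card_product, card_univ, card_univ, Fintype.card_fun, ZMod.card]
  have hTcc : Tc.card ≤ Good.card * p ^ Fintype.card κ := by
    have h1 : (Good ×ˢ (univ : Finset (κ → ZMod p))).card = Good.card * p ^ Fintype.card κ := by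
      rw [card_product, card_univ, Fintype.card_fun, ZMod.card]
    rw [← h1]
    refine card_le_card_of_injOn (fun z => (z.1, z.2.1)) ?_ ?_
    · intro z hz
      rw [mem_coe, hTc, mem_filter, hAll, mem_product] at hz
      rw [mem_coe, mem_product]
      exact ⟨hz.1.1, mem_univ _⟩
    · rintro ⟨x, y, t⟩ hz ⟨x', y', t'⟩ hz' heq
      simp only [Prod.mk.injEq] at heq
      obtain ⟨rfl, rfl⟩ := heq
      rw [mem_coe, hTc, mem_filter, not_not] at hz hz'
      have hxG : MvPolynomial.eval x N ≠ 0 := by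
        have := (mem_product.1 hz.1).1
        rw [hGood, mem_filter] at this
        exact this.2
      -- Taylor
      set v : κ → ℤ := fun i => ci (x, y, t) (some i) with hv
      set P := f.map (MvPolynomial.eval₂Hom (Int.castRingHom ℤ) v) with hP
      obtain ⟨k1, hk1⟩ := Polynomial.binomExpansion P ((u x).val : ℤ) ((p : ℤ) * (t.val : ℤ))
      obtain ⟨k2, hk2⟩ := Polynomial.binomExpansion P ((u x).val : ℤ) ((p : ℤ) * (t'.val : ℤ))
      have e1 : vf (x, y, t) f = P.eval (((u x).val : ℤ) + p * (t.val : ℤ)) := by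
        simp only [hvf]
        rw [val_eval]
        rfl
      have e2 : vf (x, y, t') f = P.eval (((u x).val : ℤ) + p * (t'.val : ℤ)) := by
        simp only [hvf]
        rw [val_eval]
        rfl
      have h3 : (p : ℤ) ^ 2 ∣ (derivative P).eval ((u x).val : ℤ) * (p * ((t.val : ℤ) - t'.val)) := by
        have h4 := dvd_sub hz.2 hz'.2
        rw [e1, e2, hk1, hk2] at h4
        have h5 : (p : ℤ) ^ 2 ∣ k1 * ((p : ℤ) * (t.val : ℤ)) ^ 2 - k2 * ((p : ℤ) * (t'.val : ℤ)) ^ 2 :=
          ⟨k1 * (t.val : ℤ) ^ 2 - k2 * (t'.val : ℤ) ^ 2, by ring⟩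
        have h6 := dvd_sub h4 h5
        have h7 : (P.eval ((u x).val : ℤ) + (derivative P).eval ((u x).val : ℤ) * (p * (t.val : ℤ)) +
            k1 * ((p : ℤ) * (t.val : ℤ)) ^ 2 - (P.eval ((u x).val : ℤ) +
            (derivative P).eval ((u x).val : ℤ) * (p * (t'.val : ℤ)) + k2 * ((p : ℤ) * (t'.val : ℤ)) ^ 2)) -
            (k1 * ((p : ℤ) * (t.val : ℤ)) ^ 2 - k2 * ((p : ℤ) * (t'.val : ℤ)) ^ 2) =
            (derivative P).eval ((u x).val : ℤ) * (p * ((t.val : ℤ) - t'.val)) := by ring
        rw [h7] at h6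
        exact h6
      have h7 : (p : ℤ) ∣ (derivative P).eval ((u x).val : ℤ) * ((t.val : ℤ) - t'.val) := by
        obtain ⟨q, hq⟩ := h3
        refine ⟨q, ?_⟩
        have hpz : (p : ℤ) ≠ 0 := by exact_mod_cast hp0.ne'
        apply mul_left_cancel₀ hpz
        linear_combination hq
      have h8 : ¬ (p : ℤ) ∣ (derivative P).eval ((u x).val : ℤ) := by
        intro h9
        apply hu1 x hxG
        rw [val_C_mul, val_mul]
        have h10 : val (derivative f) x (u x) = 0 := by
          have h11 : (((derivative P).eval ((u x).val : ℤ) : ℤ) : ZMod p) = 0 :=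
            (ZMod.intCast_zmod_eq_zero_iff_dvd _ p).2 h9
          rw [← val_derivative, val_cast] at h11
          rw [← h11]
          congr 1
          · funext i
            exact ((hcast (x, y, t)).1 i).symm
          · push_cast
            rw [ZMod.natCast_zmod_val]
        rw [h10, zero_mul, mul_zero]
      have h9 := ((Nat.prime_iff_prime_int.1 hp.out).dvd_or_dvd h7).resolve_left h8
      have h10 : (t.val : ℤ) = t'.val := by
        have h11 := ZMod.val_lt t
        have h12 := ZMod.val_lt t'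
        have h13 := Int.emod_emod_of_dvd
        have h14 : ((t.val : ℤ) - t'.val) = 0 := by
          apply Int.eq_zero_of_abs_lt_dvd h9
          rw [abs_lt]
          constructor <;> omega
        omega
      have h11 : t = t' := ZMod.val_injective p (by exact_mod_cast h10)
      rw [h11]
  have hTcard : Good.card * p ^ Fintype.card κ * (p - 1) ≤ T.card := by
    have h1 : Good.card * p ^ Fintype.card κ * p = Good.card * (p ^ Fintype.card κ * p) := by ring
    rw [Nat.mul_sub, mul_one, h1, ← hAllc]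
    omega
  -- the map
  have hinj : Set.InjOn (fun z => fun i => ((ci z i : ℤ) : ZMod (p ^ 2))) (T : Set _) := by
    rintro ⟨x, y, t⟩ - ⟨x', y', t'⟩ - heq
    have hval : ∀ a b a' b' : ZMod p, (((a.val : ℤ) + p * (b.val : ℤ) : ℤ) : ZMod (p ^ 2)) =
        (((a'.val : ℤ) + p * (b'.val : ℤ) : ℤ) : ZMod (p ^ 2)) → a = a' ∧ b = b' := by
      intro a b a' b' h1
      have h2 : ((a.val + p * b.val : ℕ) : ZMod (p ^ 2)) = ((a'.val + p * b'.val : ℕ) : ZMod (p ^ 2)) := by
        push_cast at h1 ⊢
        exact h1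
      have hlt : ∀ a b : ZMod p, a.val + p * b.val < p ^ 2 := by
        intro a b
        have h3 := ZMod.val_lt a
        have h4 := ZMod.val_lt b
        have h5 : p * b.val ≤ p * (p - 1) := Nat.mul_le_mul_left p (by omega)
        have h6 : p * (p - 1) + p = p ^ 2 := by
          rw [pow_two]
          obtain ⟨q, rfl⟩ : ∃ q, p = q + 1 := ⟨p - 1, by omega⟩
          simp
          ring
        omega
      rw [ZMod.natCast_eq_natCast_iff, Nat.ModEq, Nat.mod_eq_of_lt (hlt a b),
        Nat.mod_eq_of_lt (hlt a' b')] at h2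
      have h3 : a.val = a'.val := by
        have := congrArg (· % p) h2
        simp only [Nat.add_mul_mod_self_left] at this
        rwa [Nat.mod_eq_of_lt (ZMod.val_lt a), Nat.mod_eq_of_lt (ZMod.val_lt a')] at this
      have h4 : b.val = b'.val := by
        have h5 : p * b.val = p * b'.val := by omega
        exact Nat.eq_of_mul_eq_mul_left hp0 h5
      exact ⟨ZMod.val_injective p h3, ZMod.val_injective p h4⟩
    have h1 : ∀ i, x i = x' i ∧ y i = y' i := fun i => hval _ _ _ _ (congrFun heq (some i))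
    have h2 := hval _ _ _ _ (congrFun heq none)
    have hx : x = x' := funext fun i => (h1 i).1
    have hy : y = y' := funext fun i => (h1 i).2
    have ht : t = t' := h2.2
    rw [hx, hy, ht]
  have hsub : (fun z => fun i => ((ci z i : ℤ) : ZMod (p ^ 2))) '' (T : Set _) ⊆ Om Φ e p := by
    rintro _ ⟨z, hz, rfl⟩ c hc
    rw [mem_coe, hT, mem_filter] at hz
    obtain ⟨hzA, hzf⟩ := hz
    have hxG : MvPolynomial.eval z.1 N ≠ 0 := by
      have := (mem_product.1 hzA).1
      rw [hGood, mem_filter] at this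
      exact this.2
    -- the values at c
    have hc2 : ∀ P : (MvPolynomial κ ℤ)[X],
        ((val P (fun i => c (some i)) (c none) : ℤ) : ZMod (p ^ 2)) = ((vf z P : ℤ) : ZMod (p ^ 2)) := by
      intro P
      simp only [hvf]
      rw [val_cast, val_cast]
      congr 1
      · funext i
        exact hc (some i)
      · exact hc none
    have hc3 : ∀ P : (MvPolynomial κ ℤ)[X],
        ((val P (fun i => c (some i)) (c none) : ℤ) : ZMod p) = val P z.1 (u z.1) := by
      intro P
      rw [← hmod z P]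
      have h1 := (ZMod.intCast_eq_intCast_iff_dvd_sub _ _ _).1 (hc2 P)
      rw [ZMod.intCast_eq_intCast_iff_dvd_sub]
      refine dvd_trans ?_ h1
      push_cast
      exact ⟨p, by ring⟩
    have hf1 : (p : ℤ) ∣ val f (fun i => c (some i)) (c none) := by
      rw [← ZMod.intCast_zmod_eq_zero_iff_dvd, hc3]
      exact hu0 z.1 hxG
    have hf2 : ¬ (p : ℤ) ^ 2 ∣ val f (fun i => c (some i)) (c none) := by
      intro h1
      apply hzf
      have h2 : (((p ^ 2 : ℕ) : ℤ)) ∣ val f (fun i => c (some i)) (c none) := by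
        push_cast
        exact h1
      have h3 := (ZMod.intCast_zmod_eq_zero_iff_dvd _ (p ^ 2)).2 h2
      rw [hc2] at h3
      have h4 := (ZMod.intCast_zmod_eq_zero_iff_dvd _ (p ^ 2)).1 h3
      push_cast at h4
      exact h4
    have hne := hu1 z.1 hxG
    rw [← hc3, val_C_mul, val_mul] at hne
    have hprod : ¬ (p : ℤ) ∣ MvPolynomial.eval₂Hom (Int.castRingHom ℤ) (fun i => c (some i)) r *
        (val (derivative f) (fun i => c (some i)) (c none) * val G (fun i => c (some i)) (c none)) := by
      rw [← ZMod.intCast_zmod_eq_zero_iff_dvd]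
      exact hne
    have hpr : Prime (p : ℤ) := Nat.prime_iff_prime_int.1 hp.out
    have hr : ¬ (p : ℤ) ∣ MvPolynomial.eval₂Hom (Int.castRingHom ℤ) (fun i => c (some i)) r :=
      fun h1 => hprod (Dvd.dvd.mul_right h1 _)
    have hG : ¬ (p : ℤ) ∣ val G (fun i => c (some i)) (c none) :=
      fun h1 => hprod (Dvd.dvd.mul_left (Dvd.dvd.mul_left h1 _) _)
    have hval := congrArg (fun P => val P (fun i => c (some i)) (c none)) hrel
    beta_reduce at hval
    rw [val_C_mul, val_mul, val_pow] at hval
    obtain ⟨f1, hf1'⟩ := hf1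
    have hf1p : ¬ (p : ℤ) ∣ f1 := by
      rintro ⟨q, hq⟩
      exact hf2 ⟨q, by rw [hf1', hq]; ring⟩
    rw [hf1', mul_pow] at hval
    constructor
    · have h1 : (p : ℤ) ^ e ∣ MvPolynomial.eval₂Hom (Int.castRingHom ℤ) (fun i => c (some i)) r *
          val Φ (fun i => c (some i)) (c none) := by
        rw [hval, mul_assoc]
        exact dvd_mul_right _ _
      exact (IsCoprime.pow_left ((Prime.coprime_iff_not_dvd hpr).2 hr)).dvd_of_dvd_mul_left h1
    · rintro ⟨q, hq⟩
      rw [hq] at hval
      have hpe : (p : ℤ) ^ e ≠ 0 := pow_ne_zero _ hpr.ne_zero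
      have h2 : (p : ℤ) * (MvPolynomial.eval₂Hom (Int.castRingHom ℤ) (fun i => c (some i)) r * q) =
          f1 ^ e * val G (fun i => c (some i)) (c none) := by
        apply mul_left_cancel₀ hpe
        linear_combination hval
      rcases hpr.dvd_or_dvd ⟨_, h2.symm⟩ with h3 | h3
      · exact hf1p (hpr.dvd_of_dvd_pow h3)
      · exact hG h3
  have hfin : (Om Φ e p).Finite := Set.toFinite _
  have hle : T.card ≤ (Om Φ e p).ncard := by
    have h1 := Set.ncard_le_ncard hsub hfin
    rw [Set.InjOn.ncard_image hinj, Set.ncard_coe_finset] at h1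
    exact h1
  have hle' : ((Good.card * p ^ Fintype.card κ * (p - 1) : ℕ) : ℝ) ≤ ((Om Φ e p).ncard : ℝ) := by
    exact_mod_cast hTcard.trans hle
  refine le_trans ?_ hle'
  have hp1 : (1 : ℝ) ≤ p := by exact_mod_cast hp0
  have hp2 : (2 : ℝ) ≤ p := by exact_mod_cast hp.out.two_le
  have hg : (p : ℝ) ^ Fintype.card κ ≤ 2 * Good.card := by exact_mod_cast hcardG
  rw [Fintype.card_option]
  push_cast [Nat.cast_sub hp0]
  have e1 : 1 / (4 * (p : ℝ)) * (((p : ℝ) ^ 2) ^ (Fintype.card κ + 1)) =
      (p : ℝ) ^ Fintype.card κ / 2 * (p : ℝ) ^ Fintype.card κ * (p / 2) := by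
    have : ((p : ℝ) ^ 2) ^ (Fintype.card κ + 1) = (p : ℝ) ^ Fintype.card κ * (p : ℝ) ^ Fintype.card κ * (p * p) := by
      rw [← pow_mul]
      rw [show 2 * (Fintype.card κ + 1) = Fintype.card κ + Fintype.card κ + 2 by ring, pow_add, pow_add]
      ring
    rw [this]
    field_simp
    ring
  rw [e1]
  have hpk : (0 : ℝ) ≤ (p : ℝ) ^ Fintype.card κ := by positivity
  refine mul_le_mul (mul_le_mul_of_nonneg_right (by linarith) hpk) (by linarith) (by positivity) (by positivity)

end Pool.Agent.V5helper45.PV
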