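import Pool.Agent.V5helper45.PV.Cheb
import Pool.Agent.V5helper45.PV.Alg
import Pool.Agent.V5helper45.PV.Count
import Pool.Agent.V5helper45.PV.Loc
import Pool.Agent.N97.RO.Tw

/-! The exceptional parameters of the twists by polynomial values are pronull. -/

set_option autoImplicit false

namespace Pool.Agent.V5helper45.PV

open Finset Polynomial Pool.Agent.R925.FD
open Pool.Agent.W401.Cheb Pool.Agent.W723.SecC Pool.Agent.N24.RW

/-- The class `δ` is persistent over the rational function `B / A`: every automorphism `σ` of the field of algebraic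
numbers which fixes the coefficients of `A` and `B` fixes a zero `β` of `h` and, for every `k`, a solution `y`
of `g k (β) = δ k * y ^ n`. -/
def PersistentOver {K κ : Type} (n : ℕ) (g : K → ℤ[X]) (h : ℤ[X])
    (A B : MvPolynomial κ (AlgebraicClosure ℚ)) (δ : K → ℚ) : Prop :=
  ∀ σ : AlgebraicClosure ℚ ≃ₐ[ℚ] AlgebraicClosure ℚ, (∀ μ, σ (A.coeff μ) = A.coeff μ) →
    (∀ μ, σ (B.coeff μ) = B.coeff μ) → ∃ β, σ β = β ∧ aeval β h = 0 ∧
      ∀ k, ∃ y, σ y = y ∧ aeval β (g k) = (δ k : AlgebraicClosure ℚ) * y ^ n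

/-- **The local criterion.** -/
theorem local_main' {K : Type} [Fintype K] (n : ℕ) (hn : 0 < n) (b : ℤ) (hb : b ≠ 0) (g : K → ℤ[X])
    (h : ℤ[X]) (hg0 : ∀ k, g k ≠ 0) (hh0 : h ≠ 0) (hdeg : ∀ k, n ∣ (g k).natDegree)
    (hgg : ∀ k l, k ≠ l →
      IsCoprime ((g k).map (Int.castRingHom ℚ)) ((g l).map (Int.castRingHom ℚ)))
    (hgh : ∀ k, IsCoprime (h.map (Int.castRingHom ℚ)) ((g k).map (Int.castRingHom ℚ)))
    {κ : Type} [Fintype κ] (Φ f G : (MvPolynomial κ ℤ)[X]) (r : MvPolynomial κ ℤ) (e : ℕ)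
    (hrel : C r * Φ = f ^ e * G) (A B : MvPolynomial κ (AlgebraicClosure ℚ)) (hA : A ≠ 0)
    (hAi : ∀ μ, IsIntegral ℤ (A.coeff μ)) (hBi : ∀ μ, IsIntegral ℤ (B.coeff μ))
    (hf : eval₂ (toF κ) (algebraMap _ (FractionRing (MvPolynomial κ (AlgebraicClosure ℚ))) B /
      algebraMap _ (FractionRing (MvPolynomial κ (AlgebraicClosure ℚ))) A) f = 0)
    (hE : eval₂ (toF κ) (algebraMap _ (FractionRing (MvPolynomial κ (AlgebraicClosure ℚ))) B /
      algebraMap _ (FractionRing (MvPolynomial κ (AlgebraicClosure ℚ))) A) (C r * (derivative f * G)) ≠ 0) :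
    ∃ (Δ : Finset (K → ℤ)) (P : (K → ℤ) → Set ℕ),
      (∀ s ∈ Δ, (∀ p ∈ P s, p.Prime ∧ 1 / (4 * (p : ℝ)) * (((p ^ 2 : ℕ) : ℝ)) ^ Fintype.card (Option κ) ≤
          ((Om Φ e p).ncard : ℝ)) ∧ ∀ B : ℝ, ∃ N : ℕ, B ≤ ∑ n ∈ range N,
        Set.indicator (P s) (fun _ => (1 : ℝ)) n * (1 / ((n : ℝ) + 1))) ∧
      ∀ c : Option κ → ℤ, (∀ s ∈ Δ, ∃ p ∈ P s, (fun i => (c i : ZMod (p ^ 2))) ∈ Om Φ e p) → ∀ m, ¬ m ∣ e →
        m ∣ h.natDegree → ∀ δ : K → ℚ, IsClass n b δ →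
        (∀ (p : ℕ) [Fact p.Prime], CoveringHasPoint n m (val Φ (fun i => c (some i)) (c none)) g h δ ℚ_[p]) →
          PersistentOver n g h A B δ := by
  classical
  obtain ⟨N0, hN0, hgood⟩ := good_primes g h hg0 hh0 hgg hgh
  set N : ℕ := N0 * b.natAbs with hN
  have hNpos : 0 < N := Nat.mul_pos hN0 (Int.natAbs_pos.2 hb)
  have hgoodN : ∀ p : ℕ, ¬ p ∣ N → ¬ p ∣ N0 ∧ ¬ (p : ℤ) ∣ b := fun p hp =>
    ⟨fun h1 => hp (h1.trans (Dvd.intro _ rfl)),
      fun h1 => hp ((Int.natCast_dvd.1 h1).trans (Dvd.intro_left _ rfl))⟩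
  -- the finite set of the classes
  set D : Finset ℤ := (Finset.Icc (-((N : ℤ) ^ n)) ((N : ℤ) ^ n)).filter (fun s => s ∣ (N : ℤ) ^ n)
    with hD
  have hNn : (0 : ℤ) < (N : ℤ) ^ n := pow_pos (by exact_mod_cast hNpos) n
  have hmemD : ∀ s : ℤ, s ∣ (N : ℤ) ^ n → s ∈ D := by
    intro s hs
    rw [hD, mem_filter, Finset.mem_Icc]
    have h1 := Int.le_of_dvd hNn hs
    have h2 := Int.le_of_dvd hNn ((neg_dvd).2 hs)
    exact ⟨⟨by linarith, h1⟩, hs⟩
  have hD0 : ∀ s ∈ D, s ≠ 0 := by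
    rintro s hs rfl
    rw [hD, mem_filter] at hs
    exact hNn.ne' (zero_dvd_iff.1 hs.2)
  set Δ : Finset (K → ℤ) := (Fintype.piFinset fun _ : K => D).filter
    (fun s => ¬ PersistentOver n g h A B (fun k => (s k : ℚ))) with hΔ
  -- for each class there are many primes
  have hex : ∀ s ∈ Δ, ∃ P : Set ℕ, (∀ p ∈ P, p.Prime ∧
        1 / (4 * (p : ℝ)) * (((p ^ 2 : ℕ) : ℝ)) ^ Fintype.card (Option κ) ≤ ((Om Φ e p).ncard : ℝ)) ∧
        (∀ B : ℝ, ∃ M : ℕ, B ≤ ∑ n ∈ range M,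
        Set.indicator P (fun _ => (1 : ℝ)) n * (1 / ((n : ℝ) + 1))) ∧
        ∀ p ∈ P, ¬ p ∣ N ∧ ¬ R p n g h s := by
    intro s hs
    rw [hΔ, mem_filter, Fintype.mem_piFinset] at hs
    obtain ⟨hsD, hnp⟩ := hs
    unfold PersistentOver at hnp
    push Not at hnp
    obtain ⟨σ, hσA, hσB, hσ⟩ := hnp
    set Sx : Set (AlgebraicClosure ℚ) := Set.range (fun μ => A.coeff μ) ∪ Set.range (fun μ => B.coeff μ) with hSx
    have hSxf : Sx.Finite := by
      have h1 : ∀ P : MvPolynomial κ (AlgebraicClosure ℚ), (Set.range (fun μ => P.coeff μ)).Finite := by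
        intro P
        refine ((P.support.image fun μ => P.coeff μ) ∪ {0}).finite_toSet.subset ?_
        rintro _ ⟨μ, rfl⟩
        change P.coeff μ ∈ _
        by_cases hμ : P.coeff μ = 0
        · rw [coe_union, hμ]
          right
          simp
        · rw [coe_union, coe_image]
          left
          exact ⟨μ, MvPolynomial.mem_support_iff.2 hμ, rfl⟩
      exact (h1 A).union (h1 B)
    obtain ⟨L, iF, iN, iG, j, τ, m, hjS, hjτ, hm, hL⟩ := cheb' n hn g h hh0 hdeg s (fun k => hD0 _ (hsD k)) σ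
      Sx hSxf (by
      intro β h1 h2
      obtain ⟨k, hk⟩ := hσ β h1 h2
      refine ⟨k, fun y hy => ?_⟩
      have h3 := hk y hy
      rw [Rat.cast_intCast] at h3
      exact h3)
    obtain ⟨m2, hm2, d, hred⟩ := reduction A B hA hAi hBi σ hσA hσB L j τ
      (fun μ => hjS _ (Or.inl ⟨μ, rfl⟩)) (fun μ => hjS _ (Or.inr ⟨μ, rfl⟩)) hjτ f (C r * (derivative f * G)) hf hE
    set M := m * m2 * N * (2 * d).factorial with hM
    have hMpos : 0 < M := Nat.mul_pos (Nat.mul_pos (Nat.mul_pos hm hm2) hNpos) (Nat.factorial_pos _)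
    obtain ⟨δ, C', hδpos, hcount⟩ := count L τ M hMpos
    refine ⟨frobSet L τ M, fun p hp => ⟨hp.1, ?_⟩, diverge _ δ C' hδpos hcount, fun p hp => ?_⟩
    · obtain ⟨hF, Np, hNp0, hNpd, hNp⟩ := hred p ⟨hp.1, fun h4 => hp.2.1 (h4.trans ⟨m * N * (2 * d).factorial, by
        rw [hM]; ring⟩), hp.2.2⟩
      refine count_om Φ f G r e hrel Np hNp0 d hNpd hNp ?_
      by_contra hcon
      have h9 : p ≤ 2 * d := by omega
      have h10 : p ∣ (2 * d).factorial := Nat.dvd_factorial hp.1.pos h9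
      exact hp.2.1 (h10.trans ⟨m * m2 * N, by rw [hM]; ring⟩)
    · refine ⟨fun h4 => hp.2.1 (h4.trans ⟨m * m2 * (2 * d).factorial, by rw [hM]; ring⟩), ?_⟩
      exact hL p ⟨hp.1, fun h4 => hp.2.1 (h4.trans ⟨m2 * N * (2 * d).factorial, by rw [hM]; ring⟩), hp.2.2⟩
  choose! P hP1 hP2 hP3 using hex
  refine ⟨Δ, P, fun s hs => ⟨hP1 s hs, hP2 s hs⟩, ?_⟩
  intro cc ha m hm hmh δ hcl hloc
  obtain ⟨hδ0, t, ht⟩ := hcl
  by_contra hnp
  have hval : ∀ k, ∀ p : ℕ, p.Prime → ¬ p ∣ N → (n : ℤ) ∣ padicValRat p (δ k) := by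
    intro k p hp hpN
    have hpF : Fact p.Prime := ⟨hp⟩
    obtain ⟨z, w, x, hzw, hx, hy⟩ := hloc p
    exact val_dvd hdeg (fun u v huv => (hgood p hpF (hgoodN p hpN).1 u v huv).1) hb
      (hgoodN p hpN).2 hδ0 ht hzw hy k
  choose s c hs hc hsc using fun k => rep (δ k) (hδ0 k) N hNpos n hn (hval k)
  have hsΔ : s ∈ Δ := by
    rw [hΔ, mem_filter, Fintype.mem_piFinset]
    refine ⟨fun k => hmemD _ (hs k), fun hper => hnp ?_⟩
    intro σ hσA hσB
    obtain ⟨β, hβ, hβh, hy⟩ := hper σ hσA hσB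
    refine ⟨β, hβ, hβh, fun k => ?_⟩
    obtain ⟨y, hyσ, hyk⟩ := hy k
    have hck : ((c k : ℚ) : AlgebraicClosure ℚ) ≠ 0 := Rat.cast_ne_zero.2 (hc k)
    have hσc : σ ((c k : ℚ) : AlgebraicClosure ℚ) = ((c k : ℚ) : AlgebraicClosure ℚ) :=
      map_ratCast σ (c k)
    refine ⟨y / (c k : ℚ), ?_, ?_⟩
    · rw [map_div₀, hyσ, hσc]
    · rw [hyk, hsc k, div_pow]
      push_cast
      have h5 : ((c k : ℚ) : AlgebraicClosure ℚ) ^ n ≠ 0 := pow_ne_zero _ hck
      field_simp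
  obtain ⟨p, hpP, hpO⟩ := ha s hsΔ
  obtain ⟨hpa, hpa2⟩ := hpO cc fun i => rfl
  obtain ⟨hpN, hR⟩ := hP3 s hsΔ p hpP
  have hpF : Fact p.Prime := ⟨(hP1 s hsΔ p hpP).1⟩
  apply hR
  obtain ⟨z, w, x, hzw, hx, hy⟩ := hloc p
  obtain ⟨u, v, huv, hhuv, hred⟩ := reduces'' (K := K) hn hm hdeg hmh
    (fun u v huv => (hgood p hpF (hgoodN p hpN).1 u v huv).2) hpa hpa2 hzw hx
  refine ⟨u, v, huv, hhuv, fun k => ?_⟩
  refine hred k (s k) (fun h3 => ?_) ?_
  · have h4 : (p : ℤ) ∣ (N : ℤ) ^ n := h3.trans (hs k)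
    have h5 := (Nat.prime_iff_prime_int.1 hpF.out).dvd_of_dvd_pow h4
    exact hpN (by exact_mod_cast h5)
  · obtain ⟨y, hyk⟩ := hy k
    refine ⟨(c k : ℚ) * y, ?_⟩
    rw [hyk, hsc k]
    push_cast
    ring


/-- a pronull condition -/
theorem om_null (hC : S_CRIT) (hD : S_CLO) {κ : Type} [Fintype κ] (Φ : (MvPolynomial κ ℤ)[X]) (e : ℕ) (P : Set ℕ)
    (hdiv : ∀ B : ℝ, ∃ N : ℕ, B ≤ ∑ n ∈ range N, Set.indicator P (fun _ => (1 : ℝ)) n * (1 / ((n : ℝ) + 1)))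
    (hP : ∀ p ∈ P, p.Prime ∧ 1 / (4 * (p : ℝ)) * (((p ^ 2 : ℕ) : ℝ)) ^ Fintype.card (Option κ) ≤
      ((Om Φ e p).ncard : ℝ)) :
    ProNull {c : Option κ → ℤ | ¬ ∃ p ∈ P, (fun i => (c i : ZMod (p ^ 2))) ∈ Om Φ e p} := by
  classical
  set Ω : ∀ p : ℕ, Set (Option κ → ZMod (p ^ 2)) := fun p => if p ∈ P then Om Φ e p else ∅ with hΩ
  have h := hC (Option κ) (fun p => p ^ 2) (fun p hp => Nat.one_le_pow _ _ hp.pos)
    (fun p p' hp hp' hne => Nat.Coprime.pow 2 2 ((Nat.coprime_primes hp hp').2 hne)) Ω 0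
    (fun p => if p ∈ P then 1 / (4 * (p : ℝ)) else 0) (fun p => by positivity) ?_ ?_
  · refine (hD (Option κ)).1 _ _ ?_ h
    intro c hc p hp _ hmem
    apply hc
    by_cases hpP : p ∈ P
    · simp only [hΩ, if_pos hpP] at hmem
      exact ⟨p, hpP, hmem⟩
    · simp only [hΩ, if_neg hpP] at hmem
      exact absurd hmem (Set.notMem_empty _)
  · intro hs
    have hnn : ∀ n : ℕ, 0 ≤ (if n.Prime then (if n ∈ P then 1 / (4 * (n : ℝ)) else 0) else 0 : ℝ) := by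
      intro n
      positivity
    obtain ⟨N, hN⟩ := hdiv (4 * (∑' n : ℕ, (if n.Prime then (if n ∈ P then 1 / (4 * (n : ℝ)) else 0) else 0 : ℝ)) + 1)
    have h1 := hs.sum_le_tsum (range N) (fun n _ => hnn n)
    have h2 : ∑ n ∈ range N, Set.indicator P (fun _ => (1 : ℝ)) n * (1 / ((n : ℝ) + 1)) ≤
        4 * ∑ n ∈ range N, (if n.Prime then (if n ∈ P then 1 / (4 * (n : ℝ)) else 0) else 0 : ℝ) := by
      rw [mul_sum]
      refine sum_le_sum fun n _ => ?_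
      by_cases hn : n ∈ P
      · have hnp := (hP n hn).1
        have hn0 : (0 : ℝ) < n := by exact_mod_cast hnp.pos
        rw [Set.indicator_of_mem hn, if_pos hnp, if_pos hn, one_mul]
        have e : 4 * (1 / (4 * (n : ℝ))) = 1 / (n : ℝ) := by field_simp
        rw [e]
        exact one_div_le_one_div_of_le hn0 (by linarith)
      · rw [Set.indicator_of_notMem hn, zero_mul]
        exact mul_nonneg (by norm_num) (hnn n)
    linarith
  · intro p hp _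
    by_cases hpP : p ∈ P
    · rw [if_pos hpP]
      simp only [hΩ, if_pos hpP]
      exact (hP p hpP).2
    · rw [if_neg hpP, zero_mul]
      exact Nat.cast_nonneg _

/-- **The exceptional parameters are a pronull set.** -/
theorem null_main' (hC : S_CRIT) (hD : S_CLO) {K : Type} [Fintype K] (n : ℕ) (hn : 0 < n) (b : ℤ) (hb : b ≠ 0)
    (g : K → ℤ[X]) (h : ℤ[X]) (hg0 : ∀ k, g k ≠ 0) (hh0 : h ≠ 0) (hdeg : ∀ k, n ∣ (g k).natDegree)
    (hgg : ∀ k l, k ≠ l →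
      IsCoprime ((g k).map (Int.castRingHom ℚ)) ((g l).map (Int.castRingHom ℚ)))
    (hgh : ∀ k, IsCoprime (h.map (Int.castRingHom ℚ)) ((g k).map (Int.castRingHom ℚ)))
    {κ : Type} [Fintype κ] (Φ : (MvPolynomial κ ℤ)[X]) (hΦ : Φ ≠ 0)
    (A B : MvPolynomial κ (AlgebraicClosure ℚ)) (hA : A ≠ 0) (e : ℕ)
    (he : (Φ.map (toF κ)).rootMultiplicity
      (algebraMap _ (FractionRing (MvPolynomial κ (AlgebraicClosure ℚ))) B /
        algebraMap _ (FractionRing (MvPolynomial κ (AlgebraicClosure ℚ))) A) = e) :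
    ProNull {c : Option κ → ℤ | ¬ ∀ m, ¬ m ∣ e → m ∣ h.natDegree → ∀ δ : K → ℚ, IsClass n b δ →
      (∀ (p : ℕ) [Fact p.Prime], CoveringHasPoint n m (val Φ (fun i => c (some i)) (c none)) g h δ ℚ_[p]) →
        PersistentOver n g h A B δ} := by
  classical
  rcases Nat.eq_zero_or_pos e with he0 | he1
  · refine (hD (Option κ)).2.2.1 inferInstance _ ?_
    convert Set.finite_empty
    rw [Set.eq_empty_iff_forall_notMem]
    intro c hc
    apply hc
    intro m hm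
    rw [he0] at hm
    exact absurd (dvd_zero m) hm
  obtain ⟨r, f, G, hr, hrel, hf, hfd, hG⟩ := alg_data (toF κ) (toF_inj κ) Φ hΦ _ e he1 he
  have hE : eval₂ (toF κ) (algebraMap _ (FractionRing (MvPolynomial κ (AlgebraicClosure ℚ))) B /
        algebraMap _ (FractionRing (MvPolynomial κ (AlgebraicClosure ℚ))) A) (C r * (derivative f * G)) ≠ 0 := by
    rw [eval₂_mul, eval₂_mul, eval₂_C]
    refine mul_ne_zero ?_ (mul_ne_zero hfd hG)
    rw [map_ne_zero_iff _ (toF_inj κ)]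
    exact hr
  -- integral coefficients
  have halg : Algebra.IsAlgebraic ℤ (AlgebraicClosure ℚ) := by
    have hq : Algebra.IsAlgebraic ℚ (AlgebraicClosure ℚ) := by
      have hEq : (DivisionRing.toRatAlgebra : Algebra ℚ (AlgebraicClosure ℚ)) = AlgebraicClosure.instAlgebra ℚ :=
        Subsingleton.elim _ _
      rw [hEq]
      exact AlgebraicClosure.isAlgebraic ℚ
    exact (IsFractionRing.comap_isAlgebraic_iff (A := ℤ) (K := ℚ) (C := AlgebraicClosure ℚ)).2 hq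
  obtain ⟨D, hD0, hDi⟩ := Algebra.IsAlgebraic.exists_integral_multiples ℤ
    ((A.support.image fun μ => A.coeff μ) ∪ (B.support.image fun μ => B.coeff μ))
  have hDQ : ((D : ℤ) : AlgebraicClosure ℚ) ≠ 0 := Int.cast_ne_zero.2 hD0
  have hint : ∀ P : MvPolynomial κ (AlgebraicClosure ℚ), (P = A ∨ P = B) → ∀ μ,
      IsIntegral ℤ ((MvPolynomial.C ((D : ℤ) : AlgebraicClosure ℚ) * P).coeff μ) := by
    intro P hP μ
    rw [MvPolynomial.coeff_C_mul]
    by_cases hμ : P.coeff μ = 0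
    · rw [hμ, mul_zero]
      exact isIntegral_zero
    · have h1 : P.coeff μ ∈ (A.support.image fun μ => A.coeff μ) ∪ (B.support.image fun μ => B.coeff μ) := by
        rw [mem_union, mem_image, mem_image]
        rcases hP with rfl | rfl
        · exact Or.inl ⟨μ, MvPolynomial.mem_support_iff.2 hμ, rfl⟩
        · exact Or.inr ⟨μ, MvPolynomial.mem_support_iff.2 hμ, rfl⟩
      have h2 := hDi _ h1
      rw [zsmul_eq_mul] at h2
      exact h2
  have hA1 : MvPolynomial.C ((D : ℤ) : AlgebraicClosure ℚ) * A ≠ 0 :=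
    mul_ne_zero (by rwa [Ne, MvPolynomial.C_eq_zero]) hA
  have hratio : algebraMap _ (FractionRing (MvPolynomial κ (AlgebraicClosure ℚ)))
        (MvPolynomial.C ((D : ℤ) : AlgebraicClosure ℚ) * B) /
      algebraMap _ (FractionRing (MvPolynomial κ (AlgebraicClosure ℚ)))
        (MvPolynomial.C ((D : ℤ) : AlgebraicClosure ℚ) * A) =
      algebraMap _ (FractionRing (MvPolynomial κ (AlgebraicClosure ℚ))) B /
        algebraMap _ (FractionRing (MvPolynomial κ (AlgebraicClosure ℚ))) A := by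
    rw [map_mul, map_mul, mul_div_mul_left]
    rw [map_ne_zero_iff _ (IsFractionRing.injective _ _)]
    rwa [Ne, MvPolynomial.C_eq_zero]
  rw [← hratio] at hf hE
  obtain ⟨Δ, P, h1, h2⟩ := local_main' n hn b hb g h hg0 hh0 hdeg hgg hgh Φ f G r e hrel _ _ hA1
    (hint A (Or.inl rfl)) (hint B (Or.inr rfl)) hf hE
  refine (hD (Option κ)).1 _ _ ?_ (Pool.Agent.N97.RO.finite_union hD Δ (fun s => {c : Option κ → ℤ | ¬ ∃ p ∈ P s,
    (fun i => (c i : ZMod (p ^ 2))) ∈ Om Φ e p})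
    fun s hs => om_null hC hD Φ e (P s) (h1 s hs).2 (h1 s hs).1)
  intro c hc
  by_contra hcon
  apply hc
  intro m hm hmh δ hcl hloc
  have h3 := h2 c (by
    intro s hs
    by_contra h4
    exact hcon (Set.mem_iUnion₂.2 ⟨s, hs, h4⟩)) m hm hmh δ hcl hloc
  intro σ hσA hσB
  refine h3 σ (fun μ => ?_) (fun μ => ?_)
  · rw [MvPolynomial.coeff_C_mul, map_mul, map_intCast, hσA]
  · rw [MvPolynomial.coeff_C_mul, map_mul, map_intCast, hσB]

end Pool.Agent.V5helper45.PV
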