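import Pool.Agent.R925.FD.Cheb

/-! Points modulo `p` of a hypersurface which is the graph of a rational function over the algebraic numbers. -/

set_option autoImplicit false

namespace Pool.Agent.V5helper45.PV

open Finset Polynomial NumberField
open Pool.Agent.W401.Cheb Pool.Agent.W723.SecC Pool.Agent.R925.FD

/-- the homogenisation -/
noncomputable def hmg {R T : Type*} [CommRing R] [CommRing T] (P : R[X]) (χ : R →+* T) (b a : T) : T :=
  ∑ i ∈ range (P.natDegree + 1), χ (P.coeff i) * b ^ i * a ^ (P.natDegree - i)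

lemma map_hmg {R T T' : Type*} [CommRing R] [CommRing T] [CommRing T'] (P : R[X]) (χ : R →+* T) (b a : T)
    (ψ : T →+* T') : ψ (hmg P χ b a) = hmg P (ψ.comp χ) (ψ b) (ψ a) := by
  unfold hmg
  rw [map_sum]
  refine sum_congr rfl fun i _ => ?_
  rw [map_mul, map_mul, map_pow, map_pow, RingHom.comp_apply]

lemma hmg_field {R F : Type*} [CommRing R] [Field F] (P : R[X]) (χ : R →+* F) (b a : F) (ha : a ≠ 0) :
    hmg P χ b a = a ^ P.natDegree * eval₂ χ (b / a) P := by
  unfold hmg
  rw [eval₂_eq_sum_range, mul_sum]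
  refine sum_congr rfl fun i hi => ?_
  have h1 : i ≤ P.natDegree := by
    have := mem_range.1 hi
    omega
  have h2 : a ^ P.natDegree = a ^ i * a ^ (P.natDegree - i) := by
    rw [← pow_add]
    congr 1
    omega
  rw [h2, div_pow]
  field_simp

lemma fix_range {p : ℕ} [hp : Fact p.Prime] (c : AlgebraicClosure (ZMod p)) (h : c ^ p = c) :
    ∃ z : ZMod p, algebraMap (ZMod p) (AlgebraicClosure (ZMod p)) z = c := by
  classical
  let k' := AlgebraicClosure (ZMod p)
  have hne : (X ^ p - X : k'[X]) ≠ 0 := FiniteField.X_pow_card_sub_X_ne_zero k' hp.out.one_lt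
  have h1 : (univ.image (algebraMap (ZMod p) k')) ⊆ (X ^ p - X : k'[X]).roots.toFinset := by
    intro x hx
    obtain ⟨z, -, rfl⟩ := mem_image.1 hx
    rw [Multiset.mem_toFinset, mem_roots hne, IsRoot.def, eval_sub, eval_pow, eval_X, ← map_pow,
      ZMod.pow_card, sub_self]
  have h2 : (X ^ p - X : k'[X]).roots.toFinset.card ≤ (univ.image (algebraMap (ZMod p) k')).card := by
    rw [card_image_of_injective _ (algebraMap (ZMod p) k').injective, card_univ, ZMod.card]
    refine (Multiset.toFinset_card_le _).trans ((card_roots' _).trans ?_)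
    rw [FiniteField.X_pow_card_sub_X_natDegree_eq k' hp.out.one_lt]
  have h3 := eq_of_subset_of_card_le h1 h2
  have h4 : c ∈ (X ^ p - X : k'[X]).roots.toFinset := by
    rw [Multiset.mem_toFinset, mem_roots hne, IsRoot.def, eval_sub, eval_pow, eval_X, h, sub_self]
  rw [← h3] at h4
  obtain ⟨z, -, hz⟩ := mem_image.1 h4
  exact ⟨z, hz⟩

lemma lift_range {κ : Type} {S T : Type*} [CommRing S] [CommRing T] (f : S →+* T) (P : MvPolynomial κ T)
    (h : ∀ μ, ∃ z, f z = P.coeff μ) : ∃ Q : MvPolynomial κ S, MvPolynomial.map f Q = P := by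
  have h1 : P ∈ Set.range (MvPolynomial.map f) := by
    rw [MvPolynomial.mem_range_map_iff_coeffs_subset]
    intro x hx
    obtain ⟨μ, -, rfl⟩ := MvPolynomial.mem_coeffs_iff.1 hx
    exact h μ
  exact h1

lemma totalDegree_map_le {κ : Type} {S T : Type*} [CommRing S] [CommRing T] (f : S →+* T)
    (P : MvPolynomial κ S) : (MvPolynomial.map f P).totalDegree ≤ P.totalDegree := by
  unfold MvPolynomial.totalDegree
  exact Finset.sup_mono (MvPolynomial.support_map_subset _ _)

lemma totalDegree_map_eq {κ : Type} {S T : Type*} [CommRing S] [CommRing T] (f : S →+* T)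
    (hf : Function.Injective f) (P : MvPolynomial κ S) :
    (MvPolynomial.map f P).totalDegree = P.totalDegree := by
  unfold MvPolynomial.totalDegree
  rw [MvPolynomial.support_map_of_injective P hf]

/-- the map of `ℤ[v]` to the rational functions of `v` over the algebraic numbers -/
noncomputable def toF (κ : Type) : MvPolynomial κ ℤ →+* FractionRing (MvPolynomial κ (AlgebraicClosure ℚ)) :=
  (algebraMap (MvPolynomial κ (AlgebraicClosure ℚ)) (FractionRing (MvPolynomial κ (AlgebraicClosure ℚ)))).comp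
    (MvPolynomial.map (Int.castRingHom (AlgebraicClosure ℚ)))

lemma toF_inj (κ : Type) : Function.Injective (toF κ) :=
  (IsFractionRing.injective _ _).comp
    (MvPolynomial.map_injective _ (Int.castRingHom (AlgebraicClosure ℚ)).injective_int)

/-- the value at a point with coordinates in a ring -/
noncomputable def val {κ : Type} {R : Type*} [CommRing R] (Φ : (MvPolynomial κ ℤ)[X]) (v : κ → R) (u : R) : R :=
  eval₂ (MvPolynomial.eval₂Hom (Int.castRingHom R) v) u Φ

lemma map_val {κ : Type} {R S : Type*} [CommRing R] [CommRing S] (Φ : (MvPolynomial κ ℤ)[X]) (v : κ → R)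
    (u : R) (f : R →+* S) : f (val Φ v u) = val Φ (fun i => f (v i)) (f u) := by
  unfold val
  rw [Polynomial.hom_eval₂]
  congr 1
  apply MvPolynomial.ringHom_ext
  · intro r
    simp
  · intro i
    simp

theorem reduction {κ : Type} (A B : MvPolynomial κ (AlgebraicClosure ℚ)) (hA : A ≠ 0)
    (hAi : ∀ μ, IsIntegral ℤ (A.coeff μ)) (hBi : ∀ μ, IsIntegral ℤ (B.coeff μ))
    (σ : AlgebraicClosure ℚ ≃ₐ[ℚ] AlgebraicClosure ℚ) (hσA : ∀ μ, σ (A.coeff μ) = A.coeff μ)
    (hσB : ∀ μ, σ (B.coeff μ) = B.coeff μ)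
    (L : Type) [Field L] [NumberField L] [IsGalois ℚ L] (j : L →+* AlgebraicClosure ℚ) (τ : Gal(L/ℚ))
    (hjA : ∀ μ, ∃ y, j y = A.coeff μ) (hjB : ∀ μ, ∃ y, j y = B.coeff μ) (hjτ : ∀ x, j (τ x) = σ (j x))
    (f E : (MvPolynomial κ ℤ)[X])
    (hf : eval₂ (toF κ) (algebraMap _ (FractionRing (MvPolynomial κ (AlgebraicClosure ℚ))) B /
      algebraMap _ (FractionRing (MvPolynomial κ (AlgebraicClosure ℚ))) A) f = 0)
    (hE : eval₂ (toF κ) (algebraMap _ (FractionRing (MvPolynomial κ (AlgebraicClosure ℚ))) B /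
      algebraMap _ (FractionRing (MvPolynomial κ (AlgebraicClosure ℚ))) A) E ≠ 0) :
    ∃ m : ℕ, 0 < m ∧ ∃ d : ℕ, ∀ p ∈ frobSet L τ m, ∃ _ : Fact p.Prime, ∃ Np : MvPolynomial κ (ZMod p),
      Np ≠ 0 ∧ Np.totalDegree ≤ d ∧ ∀ x : κ → ZMod p, MvPolynomial.eval x Np ≠ 0 →
        ∃ u : ZMod p, val f x u = 0 ∧ val E x u ≠ 0 := by
  classical
  let jO : 𝓞 L →+* AlgebraicClosure ℚ := j.comp (algebraMap (𝓞 L) L)
  have hjOinj : Function.Injective jO :=
    j.injective.comp (FaithfulSMul.algebraMap_injective (𝓞 L) L)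
  have hjOτ : ∀ x : 𝓞 L, jO (τ • x) = σ (jO x) := fun x => hjτ _
  have hlift : ∀ P : MvPolynomial κ (AlgebraicClosure ℚ), (∀ μ, IsIntegral ℤ (P.coeff μ)) →
      (∀ μ, ∃ y, j y = P.coeff μ) → ∃ P' : MvPolynomial κ (𝓞 L), MvPolynomial.map jO P' = P := by
    intro P h1 h2
    refine lift_range jO P fun μ => ?_
    obtain ⟨y, hy⟩ := h2 μ
    have h3 : IsIntegral ℤ y := by
      have h4 := h1 μ
      rw [← hy] at h4
      exact (isIntegral_algHom_iff j.toIntAlgHom j.injective).1 h4
    exact ⟨⟨y, h3⟩, hy⟩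
  obtain ⟨A', hA'⟩ := hlift A hAi hjA
  obtain ⟨B', hB'⟩ := hlift B hBi hjB
  have hmapinj := MvPolynomial.map_injective (σ := κ) jO hjOinj
  -- the maps
  set χ0 : MvPolynomial κ ℤ →+* MvPolynomial κ (𝓞 L) := MvPolynomial.map (Int.castRingHom (𝓞 L)) with hχ0
  have hχ1 : ((algebraMap (MvPolynomial κ (AlgebraicClosure ℚ)) (FractionRing (MvPolynomial κ (AlgebraicClosure ℚ)))).comp
      (MvPolynomial.map jO)).comp χ0 = toF κ := by
    unfold toF
    rw [RingHom.comp_assoc]
    congr 1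
    apply MvPolynomial.ringHom_ext
    · intro r
      simp [hχ0]
    · intro i
      simp [hχ0]
  have hAF : algebraMap (MvPolynomial κ (AlgebraicClosure ℚ))
      (FractionRing (MvPolynomial κ (AlgebraicClosure ℚ))) A ≠ 0 := by
    rw [map_ne_zero_iff _ (IsFractionRing.injective _ _)]
    exact hA
  have hbig : ∀ P : (MvPolynomial κ ℤ)[X], algebraMap (MvPolynomial κ (AlgebraicClosure ℚ))
      (FractionRing (MvPolynomial κ (AlgebraicClosure ℚ))) (MvPolynomial.map jO (hmg P χ0 B' A')) =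
      (algebraMap (MvPolynomial κ (AlgebraicClosure ℚ))
        (FractionRing (MvPolynomial κ (AlgebraicClosure ℚ))) A) ^ P.natDegree *
      eval₂ (toF κ) (algebraMap _ (FractionRing (MvPolynomial κ (AlgebraicClosure ℚ))) B /
        algebraMap _ (FractionRing (MvPolynomial κ (AlgebraicClosure ℚ))) A) P := by
    intro P
    rw [← hmg_field P (toF κ) _ _ hAF, ← RingHom.comp_apply, map_hmg, hχ1, RingHom.comp_apply,
      RingHom.comp_apply, hA', hB']
  have hf0 : hmg f χ0 B' A' = 0 := by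
    apply hmapinj
    apply IsFractionRing.injective (MvPolynomial κ (AlgebraicClosure ℚ))
      (FractionRing (MvPolynomial κ (AlgebraicClosure ℚ)))
    rw [hbig, hf, mul_zero, map_zero, map_zero]
  have hE0 : hmg E χ0 B' A' ≠ 0 := by
    intro h
    have h1 := hbig E
    rw [h, map_zero, map_zero] at h1
    exact mul_ne_zero (pow_ne_zero _ hAF) hE h1.symm
  have hA0' : A' ≠ 0 := by
    rintro rfl
    apply hA
    rw [← hA', map_zero]
  set N0 := A' * hmg E χ0 B' A' with hN0
  have hN00 : N0 ≠ 0 := mul_ne_zero hA0' hE0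
  obtain ⟨μ0, hμ0⟩ := MvPolynomial.ne_zero_iff.1 hN00
  obtain ⟨m, hm, hmz⟩ := nz L _ hμ0
  refine ⟨m, hm, N0.totalDegree, fun p hp => ?_⟩
  obtain ⟨hpp, hpm, hxp⟩ := hp
  have hF : Fact p.Prime := ⟨hpp⟩
  have hex : ∃ φ : 𝓞 L →+* AlgebraicClosure (ZMod p), HasFrob p φ τ := by
    unfold xp at hxp
    rw [dif_pos hpp] at hxp
    by_contra h
    push Not at h
    apply hxp
    rw [Nat.card_eq_zero]
    left
    exact ⟨fun x => h x.1 x.2⟩
  obtain ⟨φ, hφ⟩ := hex
  have hmp : ((m : ℕ) : AlgebraicClosure (ZMod p)) ≠ 0 := by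
    intro h
    rw [CharP.cast_eq_zero_iff (AlgebraicClosure (ZMod p)) p] at h
    exact hpm h
  have hφμ := hmz _ φ hmp
  set ι := algebraMap (ZMod p) (AlgebraicClosure (ZMod p)) with hι
  have hιinj : Function.Injective ι := ι.injective
  have hmapι := MvPolynomial.map_injective (σ := κ) ι hιinj
  have hdesc : ∀ (P : MvPolynomial κ (AlgebraicClosure ℚ)) (P' : MvPolynomial κ (𝓞 L)),
      MvPolynomial.map jO P' = P → (∀ μ, σ (P.coeff μ) = P.coeff μ) →
      ∃ Pp : MvPolynomial κ (ZMod p), MvPolynomial.map ι Pp = MvPolynomial.map φ P' := by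
    intro P P' h1 h2
    refine lift_range ι _ fun μ => ?_
    apply fix_range
    rw [MvPolynomial.coeff_map, ← hφ]
    congr 1
    apply hjOinj
    rw [hjOτ, ← MvPolynomial.coeff_map, h1, h2]
  obtain ⟨Ap, hAp⟩ := hdesc A A' hA' hσA
  obtain ⟨Bp, hBp⟩ := hdesc B B' hB' hσB
  set χp : MvPolynomial κ ℤ →+* MvPolynomial κ (ZMod p) := MvPolynomial.map (Int.castRingHom (ZMod p)) with hχp
  have hcomp : (MvPolynomial.map ι).comp χp = (MvPolynomial.map φ).comp χ0 := by
    apply MvPolynomial.ringHom_ext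
    · intro r
      simp [hχp, hχ0]
    · intro i
      simp [hχp, hχ0]
  have hred : ∀ P : (MvPolynomial κ ℤ)[X],
      MvPolynomial.map ι (hmg P χp Bp Ap) = MvPolynomial.map φ (hmg P χ0 B' A') := by
    intro P
    rw [map_hmg, map_hmg, hAp, hBp, hcomp]
  have hfp : hmg f χp Bp Ap = 0 := by
    apply hmapι
    rw [hred, hf0, map_zero, map_zero]
  have hNp : MvPolynomial.map ι (Ap * hmg E χp Bp Ap) = MvPolynomial.map φ N0 := by
    rw [map_mul, hAp, hred, hN0, map_mul]
  refine ⟨hF, Ap * hmg E χp Bp Ap, ?_, ?_, ?_⟩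
  · intro h
    rw [h, map_zero] at hNp
    apply hφμ
    rw [← MvPolynomial.coeff_map, ← hNp, MvPolynomial.coeff_zero]
  · rw [← totalDegree_map_eq ι hιinj, hNp]
    exact totalDegree_map_le φ N0
  · intro x hx
    rw [map_mul] at hx
    have ha := left_ne_zero_of_mul hx
    have hb := right_ne_zero_of_mul hx
    have hc : (MvPolynomial.eval x).comp χp = MvPolynomial.eval₂Hom (Int.castRingHom (ZMod p)) x := by
      apply MvPolynomial.ringHom_ext
      · intro r
        simp [hχp]
      · intro i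
        simp [hχp]
    refine ⟨MvPolynomial.eval x Bp / MvPolynomial.eval x Ap, ?_, ?_⟩
    · have h1 := congrArg (MvPolynomial.eval x) hfp
      rw [map_zero, map_hmg, hmg_field _ _ _ _ ha, hc] at h1
      exact (mul_eq_zero.1 h1).resolve_left (pow_ne_zero _ ha)
    · rw [map_hmg, hmg_field _ _ _ _ ha, hc] at hb
      exact right_ne_zero_of_mul hb

end Pool.Agent.V5helper45.PV
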